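import Pool.Agent.H43.BC.FinB
import Pool.Agent.H98.BC.Fin
import Pool.Agent.H98.BC.Count

/-!
# Ziller's finiteness question for flag manifolds of types B, C, D

Let `k <= 4`. There are constants `B`, `C` such that the flag manifolds
`SO(2 n_1 + ... + 2 n_k + m) / (U(n_1) x ... x U(n_k) x SO(m))`, `m ≠ 2`, and
`Sp(n_1 + ... + n_k + m) / (U(n_1) x ... x U(n_k) x Sp(m))` have only finitely many invariant
Einstein metrics up to homothety if the numbers `n_i n_j`, `n_i (n_i + e)`, `n_i m` satisfy no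
nontrivial integer linear relation with coefficients of absolute value at most `B`; for every `m`
at most `C X^(k-1)` of the `X^k` vectors of block sizes in `[1, X]^k` violate this condition.
-/

namespace Pool.Agent.Results.MP_f7dfa6_gt.ClassicalBCD

open Pool.Agent.H43.BC Pool.Agent.H43.BC.Stmt

theorem result (k : ℕ) (hk : k ≤ 4) :
    ∃ B C : ℕ,
      (∀ (n : Fin k → ℕ) (m : ℕ), (∀ i, 0 < n i) → m ≠ 2 → NoRelation (-1) B n m →
        FinitelyManyEinstein (orthogonal n m)) ∧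
      (∀ (n : Fin k → ℕ) (m : ℕ), (∀ i, 0 < n i) → NoRelation 1 B n (2 * m) →
        FinitelyManyEinstein (symplectic n m)) ∧
      (∀ m X : ℕ, {n : Fin k → ℕ | (∀ i, 1 ≤ n i ∧ n i ≤ X) ∧
        ¬ NoRelation (-1) B n m}.ncard ≤ C * X ^ (k - 1)) ∧
      (∀ m X : ℕ, {n : Fin k → ℕ | (∀ i, 1 ≤ n i ∧ n i ≤ X) ∧
        ¬ NoRelation 1 B n (2 * m)}.ncard ≤ C * X ^ (k - 1)) :=
  fin_b (Pool.Agent.H98.BC.finite_sysB k hk) (fun B => Pool.Agent.H98.BC.countB' k B)

end Pool.Agent.Results.MP_f7dfa6_gt.ClassicalBCD
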