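import Pool.Agent.H43.F4.Fin
import Pool.Agent.H98.FL.Bridge

/-!
# Ziller's finiteness question for flag manifolds of type A

For every number `k` of blocks there are constants `B`, `C` such that the flag manifold
`SU(N) / S(U(n_1) x ... x U(n_k))` has only finitely many invariant Einstein metrics up to
homothety if `k = 4` (all block sizes), or if the products `n_i n_j` (`i < j`) satisfy no nontrivial
integer linear relation with coefficients of absolute value at most `B`; at most `C X^(k-1)` of the
`X^k` vectors of block sizes in `[1, X]^k` violate the last condition.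
-/

namespace Pool.Agent.Results.MP_f7dfa6_gt.TypeA

open Pool.Agent.H98.FL Pool.Agent.H98.FL.Stmt

open Classical in
theorem result (k : ℕ) :
    ∃ B C : ℕ,
      (∀ n : Fin k → ℕ, (∀ i, 0 < n i) → (k = 4 ∨ NoRelation B n) → FinitelyManyEinstein n) ∧
      ∀ X : ℕ, ((Fintype.piFinset fun _ : Fin k => Finset.Icc 1 X).filter
        fun n => ¬ NoRelation B n).card ≤ C * X ^ (k - 1) := by
  obtain ⟨B, C, h1, h2⟩ := main' k
  refine ⟨B, C, fun n hn h => ?_, h2⟩
  rcases h with rfl | h
  · exact Pool.Agent.H43.F4.four_blocks n hn
  · exact h1 n hn h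

end Pool.Agent.Results.MP_f7dfa6_gt.TypeA
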